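import Mathlib

namespace Pool.Agent.Results.MP_c26838_an.Counter

open Filter Topology BoundedContinuousFunction
open scoped ENNReal

section defs
variable (A : ℕ → Type) [∀ n, NormedRing (A n)] [∀ n, NormOneClass (A n)]

/-- `ℓ^∞(A n)`. -/
def Linf : Type := lp A ∞

noncomputable instance ringL : Ring (Linf A) := lp.inftyRing (B := A)

/-- The `n`-th term of a bounded sequence. -/
def ev (a : Linf A) (n : ℕ) : A n := Subtype.val a n

/-- Null sequences. -/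
def Null : Set (Linf A) := {a | Tendsto (fun n => ‖ev A a n‖) atTop (𝓝 0)}

lemma n0 : 0 ∈ Null A := by
  show Tendsto (fun n => ‖(0 : A n)‖) atTop (𝓝 0)
  simp

lemma n1 {a b : Linf A} (ha : a ∈ Null A) (hb : b ∈ Null A) : a + b ∈ Null A :=
  squeeze_zero (fun _ => norm_nonneg _) (fun n => norm_add_le (ev A a n) (ev A b n))
    (by simpa using Tendsto.add ha hb)

lemma n2 {a : Linf A} (ha : a ∈ Null A) : -a ∈ Null A :=
  Tendsto.congr (fun n => (norm_neg (ev A a n)).symm) ha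

lemma n3 {a b : Linf A} (hb : b ∈ Null A) : a * b ∈ Null A :=
  squeeze_zero (fun _ => norm_nonneg _)
    (fun n => (norm_mul_le (ev A a n) (ev A b n)).trans (mul_le_mul_of_nonneg_right
      (lp.norm_apply_le_norm (E := A) ENNReal.top_ne_zero a n) (norm_nonneg _)))
    (by simpa using Tendsto.const_mul ‖show lp A ∞ from a‖ hb)

lemma n4 {a b : Linf A} (ha : a ∈ Null A) : a * b ∈ Null A :=
  squeeze_zero (fun _ => norm_nonneg _)
    (fun n => (norm_mul_le (ev A a n) (ev A b n)).trans (mul_le_mul_of_nonneg_left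
      (lp.norm_apply_le_norm (E := A) ENNReal.top_ne_zero b n) (norm_nonneg _)))
    (by simpa using Tendsto.mul_const ‖show lp A ∞ from b‖ ha)

/-- The ideal `c₀(A n)` of null sequences in `ℓ^∞(A n)`. -/
noncomputable def c0 : TwoSidedIdeal (Linf A) :=
  TwoSidedIdeal.mk' (Null A) (n0 A) (n1 A) (n2 A) (n3 A) (n4 A)

/-- The quotient map onto the asymptotic sequence algebra `ℓ^∞ / c₀`. -/
noncomputable def pi : Linf A →+* (c0 A).ringCon.Quotient := (c0 A).ringCon.mk'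

/-- Invertible elements are dense in `ℓ^∞ / c₀` for the quotient norm `limsup ‖a n‖`. -/
def AsySR1 : Prop := ∀ a : Linf A, ∀ ε > 0, ∃ b : Linf A,
  IsUnit (pi A b) ∧ limsup (fun n => ‖ev A a n - ev A b n‖) atTop < ε

end defs

def SR1 (B : Type) [NormedRing B] : Prop := Dense {b : B | IsUnit b}

def E := ℕ →ᵇ ℂ
noncomputable instance : NormedAddCommGroup E := inferInstanceAs (NormedAddCommGroup (ℕ →ᵇ ℂ))
noncomputable instance : NormedSpace ℂ E := inferInstanceAs (NormedSpace ℂ (ℕ →ᵇ ℂ))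
instance : CompleteSpace E := inferInstanceAs (CompleteSpace (ℕ →ᵇ ℂ))

def B := E →L[ℂ] E
noncomputable instance : NormedRing B := inferInstanceAs (NormedRing (E →L[ℂ] E))
noncomputable instance : NormedAlgebra ℂ B := inferInstanceAs (NormedAlgebra ℂ (E →L[ℂ] E))
instance : CompleteSpace B := inferInstanceAs (CompleteSpace (E →L[ℂ] E))
instance : Nontrivial E := ⟨(0 : ℕ →ᵇ ℂ), (1 : ℕ →ᵇ ℂ), fun h => by
  simpa using congrArg (fun f : ℕ →ᵇ ℂ => f 0) h⟩
instance : NormOneClass B := inferInstanceAs (NormOneClass (E →L[ℂ] E))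

noncomputable def cmp (g : ℕ → ℕ) : B :=
  compContinuousCLM ℂ ℂ ⟨g, continuous_of_discreteTopology⟩

lemma lr : cmp (· + 1) * cmp (· - 1) = 1 := rfl

lemma rl : cmp (· - 1) * cmp (· + 1) ≠ 1 := by
  intro this
  have h2 := congrArg (fun T : (ℕ →ᵇ ℂ) →L[ℂ] (ℕ →ᵇ ℂ) => T
    (BoundedContinuousFunction.ofNormedAddCommGroupDiscrete (fun k => if k = 0 then 1 else 0) 1
      (fun k => by split_ifs <;> simp)) 0) this
  change (if (0 - 1 + 1 : ℕ) = 0 then (1 : ℂ) else 0) = if (0 : ℕ) = 0 then 1 else 0 at h2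
  simp at h2

def Sc (_ : ℕ) : Type := B

noncomputable instance (n : ℕ) : NormedAddCommGroup (Sc n) :=
  inferInstanceAs (NormedAddCommGroup B)
noncomputable instance (n : ℕ) : NormedSpace ℂ (Sc n) := inferInstanceAs (NormedSpace ℂ B)
instance (n : ℕ) : CompleteSpace (Sc n) := inferInstanceAs (CompleteSpace B)

def tB {n : ℕ} (x : Sc n) : B := x
def oB (n : ℕ) (x : B) : Sc n := x

noncomputable def w (n : ℕ) : ℂ := ((n : ℂ) + 1)⁻¹

lemma w_ne (n : ℕ) : w n ≠ 0 := inv_ne_zero (Nat.cast_add_one_ne_zero n)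

lemma norm_w (n : ℕ) : ‖w n‖ = 1 / ((n : ℝ) + 1) := by
  rw [w, norm_inv, one_div]
  congr 1
  exact_mod_cast Complex.norm_natCast (n + 1)

noncomputable instance (n : ℕ) : NonUnitalNormedRing (Sc n) where
  mul x y := oB n (w n • (tB x * tB y))
  left_distrib a b c := by
    show w n • (tB a * (tB b + tB c)) = w n • (tB a * tB b) + w n • (tB a * tB c)
    rw [mul_add, smul_add]
  right_distrib a b c := by
    show w n • ((tB a + tB b) * tB c) = w n • (tB a * tB c) + w n • (tB b * tB c)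
    rw [add_mul, smul_add]
  zero_mul a := by
    show w n • (0 * tB a) = 0
    simp
  mul_zero a := by
    show w n • (tB a * 0) = 0
    simp
  mul_assoc a b c := by
    show w n • (w n • (tB a * tB b) * tB c) = w n • (tB a * (w n • (tB b * tB c)))
    rw [smul_mul_assoc, mul_smul_comm, mul_assoc]
  dist_eq := NormedAddCommGroup.dist_eq
  norm_mul_le a b := by
    show ‖w n • (tB a * tB b)‖ ≤ ‖tB a‖ * ‖tB b‖
    rw [norm_smul, norm_w]
    have : 1 / ((n : ℝ) + 1) ≤ 1 := by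
      rw [div_le_one (by positivity)]; linarith [n.cast_nonneg (α := ℝ)]
    exact (mul_le_of_le_one_left (norm_nonneg _) this).trans (norm_mul_le _ _)

instance (n : ℕ) : IsScalarTower ℂ (Sc n) (Sc n) := ⟨fun c a b => by
  show w n • ((c • tB a) * tB b) = c • (w n • (tB a * tB b))
  rw [smul_mul_assoc, smul_comm]⟩

instance (n : ℕ) : SMulCommClass ℂ (Sc n) (Sc n) := ⟨fun c a b => by
  show c • (w n • (tB a * tB b)) = w n • (tB a * (c • tB b))
  rw [mul_smul_comm, smul_comm]⟩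

lemma norm_mul_sc {n : ℕ} (a b : Sc n) : ‖a * b‖ ≤ 1 / ((n : ℝ) + 1) * (‖a‖ * ‖b‖) := by
  show ‖w n • (tB a * tB b)‖ ≤ _ * (‖tB a‖ * ‖tB b‖)
  rw [norm_smul, norm_w]
  gcongr
  exact norm_mul_le _ _

abbrev A (n : ℕ) := WithLp 1 (Unitization ℂ (Sc n))

lemma nrm {n : ℕ} (x : A n) : ‖x‖ = ‖x.ofLp.fst‖ + ‖x.ofLp.snd‖ := WithLp.unitization_norm_def x

instance (n : ℕ) : NormOneClass (A n) := ⟨by
  rw [nrm]
  show ‖(1 : Unitization ℂ (Sc n)).fst‖ + ‖(1 : Unitization ℂ (Sc n)).snd‖ = 1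
  simp⟩

noncomputable def ph (n : ℕ) : Sc n →ₙₐ[ℂ] B where
  toFun x := w n • tB x
  map_smul' c x := by
    show w n • (c • tB x) = c • (w n • tB x)
    rw [smul_comm]
  map_zero' := by
    show w n • (0 : B) = 0
    simp
  map_add' x y := by
    show w n • (tB x + tB y) = w n • tB x + w n • tB y
    rw [smul_add]
  map_mul' x y := by
    show w n • (w n • (tB x * tB y)) = _
    rw [smul_mul_assoc, mul_smul_comm]

noncomputable def Ph (n : ℕ) : A n →ₐ[ℂ] B :=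
  (Unitization.lift (ph n)).comp (WithLp.unitizationAlgEquiv ℂ).toAlgHom

lemma Ph_apply {n : ℕ} (x : A n) : Ph n x = algebraMap ℂ B x.ofLp.fst + w n • tB x.ofLp.snd := rfl

lemma Ph_cont (n : ℕ) : Continuous (Ph n) := by
  refine AddMonoidHomClass.continuous_of_bound (Ph n) 1 fun x => ?_
  rw [Ph_apply, nrm, one_mul]
  refine (norm_add_le _ _).trans (add_le_add (by simp) ?_)
  rw [norm_smul, norm_w]
  have : 1 / ((n : ℝ) + 1) ≤ 1 := by
    rw [div_le_one (by positivity)]; linarith [n.cast_nonneg (α := ℝ)]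
  exact mul_le_of_le_one_left (norm_nonneg _) this

lemma not_sr (n : ℕ) : ¬ SR1 (A n) := by
  intro h
  have hlr := lr
  have hopen : IsOpen {x : A n | IsUnit (cmp (· + 1) * Ph n x)} :=
    Units.isOpen.preimage (continuous_const.mul (Ph_cont n))
  obtain ⟨x, hx1, hx2⟩ := h.inter_open_nonempty _ hopen
    ⟨WithLp.toLp 1 (Unitization.inr (oB n ((w n)⁻¹ • cmp (· - 1)))), by
      have : Ph n (WithLp.toLp 1 (Unitization.inr (oB n ((w n)⁻¹ • cmp (· - 1))))) =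
          cmp (· - 1) := by
        rw [Ph_apply]
        simp [tB, oB, smul_smul, w_ne]
      simp only [Set.mem_ofPred_eq, this, hlr, isUnit_one]⟩
  have hu : IsUnit (cmp (· + 1)) := (IsUnit.mul_right_iff (IsUnit.map (Ph n) hx2)).1 hx1
  obtain ⟨u, hu⟩ := hu
  have : cmp (· - 1) * cmp (· + 1) = 1 := by
    rw [← hu] at hlr ⊢
    rw [← Units.inv_eq_of_mul_eq_one_right hlr]; simp
  exact rl this

noncomputable def mkA {n : ℕ} (c : ℂ) (x : Sc n) : A n := WithLp.toLp 1 (Unitization.inl c + (x : Unitization ℂ (Sc n)))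

lemma nrm_mk {n : ℕ} (c : ℂ) (x : Sc n) : ‖mkA c x‖ = ‖c‖ + ‖x‖ := by simp [nrm, mkA]

lemma mk_mul {n : ℕ} (c : ℂ) (hc : c ≠ 0) (x : Sc n) :
    mkA c x * mkA c⁻¹ (-(c⁻¹ * c⁻¹) • x) - 1 = mkA 0 (-(c⁻¹ * c⁻¹) • (x * x)) ∧
    mkA c⁻¹ (-(c⁻¹ * c⁻¹) • x) * mkA c x - 1 = mkA 0 (-(c⁻¹ * c⁻¹) • (x * x)) := by
  have e : c * (c⁻¹ * c⁻¹) = c⁻¹ := by field_simp
  constructor <;>
  · apply (WithLp.unitizationAlgEquiv ℂ).injective
    rw [map_sub, map_mul, map_one]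
    ext
    · simp [mkA, hc, sub_eq_add_neg]
    · simp [mkA, smul_smul, e, mul_smul_comm, smul_mul_assoc, sub_eq_add_neg]

lemma asy : AsySR1 A := by
  intro (a : lp A ∞) ε hε
  have hb : ∀ n, ‖(a n).ofLp.fst‖ + ‖(a n).ofLp.snd‖ ≤ ‖a‖ := fun n => by
    rw [← nrm]; exact lp.norm_apply_le_norm ENNReal.top_ne_zero a n
  set δ := ε / 4
  have hδ : 0 < δ := by positivity
  let μ : ℕ → ℂ := fun n => if δ ≤ ‖(a n).ofLp.fst‖ then (a n).ofLp.fst else δ
  have m1 : ∀ n, δ ≤ ‖μ n‖ := fun n => by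
    simp only [μ]; split_ifs with h
    · exact h
    · simp [abs_of_pos hδ]
  have m2 : ∀ n, ‖(a n).ofLp.fst - μ n‖ ≤ 2 * δ := fun n => by
    simp only [μ]; split_ifs with h
    · simp [hδ.le]
    · refine (norm_sub_le _ _).trans ?_
      simp only [Complex.norm_real, Real.norm_eq_abs, abs_of_pos hδ]; linarith
  have m0 : ∀ n, μ n ≠ 0 := fun n => norm_pos_iff.1 (hδ.trans_le (m1 n))
  have m3 : ∀ n, ‖(μ n)⁻¹‖ ≤ δ⁻¹ := fun n => by
    rw [norm_inv]; exact inv_anti₀ hδ (m1 n)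
  have x1 : ∀ n, ‖(a n).ofLp.snd‖ ≤ ‖a‖ := fun n => by linarith [hb n, norm_nonneg (a n).ofLp.fst]
  have m4 : ∀ n, ‖-((μ n)⁻¹ * (μ n)⁻¹)‖ ≤ δ⁻¹ * δ⁻¹ := fun n => by
    rw [norm_neg, norm_mul]; exact mul_le_mul (m3 n) (m3 n) (norm_nonneg _) (by positivity)
  let b : lp A ∞ := ⟨fun n => mkA (μ n) (a n).ofLp.snd, memℓp_infty ⟨‖a‖ + 2 * δ, by
    rintro _ ⟨n, rfl⟩
    simp only [nrm_mk]
    have := norm_sub_norm_le (μ n) (a n).ofLp.fst
    rw [norm_sub_rev] at this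
    linarith [hb n, m2 n]⟩⟩
  let c : lp A ∞ := ⟨fun n => mkA (μ n)⁻¹ (-((μ n)⁻¹ * (μ n)⁻¹) • (a n).ofLp.snd),
    memℓp_infty ⟨δ⁻¹ + δ⁻¹ * δ⁻¹ * ‖a‖, by
      rintro _ ⟨n, rfl⟩
      simp only [nrm_mk, norm_smul]
      exact add_le_add (m3 n) (mul_le_mul (m4 n) (x1 n) (norm_nonneg _) (by positivity))⟩⟩
  have hz : Tendsto (fun n => ‖mkA 0 (-((μ n)⁻¹ * (μ n)⁻¹) • ((a n).ofLp.snd * (a n).ofLp.snd))‖)
      atTop (𝓝 0) := by
    refine squeeze_zero (fun _ => norm_nonneg _)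
      (g := fun n : ℕ => δ⁻¹ * δ⁻¹ * (1 / ((n : ℝ) + 1) * (‖a‖ * ‖a‖))) (fun n => ?_) ?_
    · rw [nrm_mk, norm_zero, zero_add, norm_smul]
      refine mul_le_mul (m4 n) ((norm_mul_sc _ _).trans ?_) (norm_nonneg _) (by positivity)
      gcongr <;> exact x1 n
    · simpa using (tendsto_one_div_add_atTop_nhds_zero_nat.mul_const (‖a‖ * ‖a‖)).const_mul
        (δ⁻¹ * δ⁻¹)
  refine ⟨b, ⟨⟨pi A b, pi A c, ?_, ?_⟩, rfl⟩, ?_⟩
  · rw [← map_mul, ← map_one (pi A)]
    refine (RingCon.eq _).2 ((TwoSidedIdeal.rel_iff _ _ _).2 ?_)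
    rw [c0, TwoSidedIdeal.mem_mk']
    exact Tendsto.congr (fun n => congrArg norm (mk_mul _ (m0 n) _).1.symm) hz
  · rw [← map_mul, ← map_one (pi A)]
    refine (RingCon.eq _).2 ((TwoSidedIdeal.rel_iff _ _ _).2 ?_)
    rw [c0, TwoSidedIdeal.mem_mk']
    exact Tendsto.congr (fun n => congrArg norm (mk_mul _ (m0 n) _).2.symm) hz
  · refine lt_of_le_of_lt (limsup_le_of_le (isCoboundedUnder_le_of_le atTop
      fun n => norm_nonneg _) (Eventually.of_forall fun n => ?_)) (show 2 * δ < ε by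
        simp only [δ]; linarith)
    rw [nrm]
    show ‖((a n).ofLp - (Unitization.inl (μ n) + ((a n).ofLp.snd : Unitization ℂ (Sc n)))).fst‖ +
      ‖((a n).ofLp - (Unitization.inl (μ n) + ((a n).ofLp.snd : Unitization ℂ (Sc n)))).snd‖ ≤ _
    simpa [sub_eq_add_neg] using m2 n

theorem result : ∃ (A : ℕ → Type) (_ : ∀ n, NormedRing (A n)) (_ : ∀ n, NormedAlgebra ℂ (A n))
    (_ : ∀ n, NormOneClass (A n)), (∀ n, CompleteSpace (A n)) ∧ AsySR1 A ∧ ∀ n, ¬ SR1 (A n) :=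
  ⟨A, inferInstance, inferInstance, inferInstance, inferInstance, asy, not_sr⟩

end Pool.Agent.Results.MP_c26838_an.Counter
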